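import Pool.Agent.TH609.E3.Dat

/-!
# Degrees of the basis and enumeration of the positions (`G4a`, `G4d`)
-/

set_option autoImplicit false

open Polynomial Pool.Agent.H337R2 Pool.Agent.TH609.E3

namespace Pool.Agent.TH609.E3.W249

lemma Lin_monic (n : ℕ) : (Lin n).Monic := monic_X_add_C _

lemma Lin_deg (n : ℕ) : (Lin n).natDegree = 1 := natDegree_X_add_C _

lemma QB_aux (n i : ℕ) : (QB n i).Monic ∧ (QB n i).natDegree = 2 := by
  by_cases hi : i < nL
  · have h1 : (Lin n ^ 2).Monic := (Lin_monic n).pow 2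
    have h2 : (Lin n ^ 2).natDegree = 2 := by rw [(Lin_monic n).natDegree_pow, Lin_deg]
    have h3 : (C (cG i * (n : ℚ) ^ 2) : ℚ[X]).natDegree < (Lin n ^ 2).natDegree := by
      rw [h2, natDegree_C]; norm_num
    have e : QB n i = Lin n ^ 2 + C (cG i * (n : ℚ) ^ 2) := by
      unfold QB
      rw [if_pos hi]
    rw [e]
    refine ⟨h1.add_of_left (degree_lt_degree h3), ?_⟩
    rw [natDegree_add_eq_left_of_natDegree_lt h3, h2]
  · have e : QB n i = (X + C (cG i * (n : ℚ))) ^ 2 := by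
      unfold QB
      rw [if_neg hi]
    rw [e]
    refine ⟨(monic_X_add_C _).pow 2, ?_⟩
    rw [(monic_X_add_C _).natDegree_pow, natDegree_X_add_C]

lemma QB_monic (n b : ℕ) : (QB n b).Monic := (QB_aux _ _).1

lemma QB_deg (n b : ℕ) : (QB n b).natDegree = 2 := (QB_aux _ _).2

lemma prod_aux (n : ℕ) (f : ℕ → ℕ) :
    (∏ i ∈ Finset.range nN, QB n i ^ f i).Monic ∧
    (∏ i ∈ Finset.range nN, QB n i ^ f i).natDegree = 2 * ∑ i ∈ Finset.range nN, f i := by
  refine ⟨monic_prod_of_monic _ _ fun i _ => (QB_monic n i).pow _, ?_⟩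
  rw [natDegree_prod_of_monic _ _ fun i _ => (QB_monic n i).pow _, Finset.mul_sum]
  refine Finset.sum_congr rfl fun i _ => ?_
  rw [(QB_monic n i).natDegree_pow, QB_deg]
  ring

theorem G4a : StG4a := by
  intro n b m j hp
  have h1 := prod_aux n fun i => sG b i * (n / 60)
  have h2 := prod_aux n fun i => sG (b + 1) i - sG b i
  have e1 : SB n b = ∏ i ∈ Finset.range nN, QB n i ^ (sG b i * (n / 60)) := rfl
  have e2 : TB n b = ∏ i ∈ Finset.range nN, QB n i ^ (sG (b + 1) i - sG b i) := rfl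
  rw [← e1] at h1
  rw [← e2] at h2
  have hb : b ≤ nB := by
    rcases hp with ⟨h, _⟩ | ⟨h, _⟩ <;> omega
  have s1 : ∑ i ∈ Finset.range nN, sG b i * (n / 60) = ho b * (n / 60) := by
    rw [← Finset.sum_mul, sum_sG hb]
  have m3 : (TB n b ^ m).Monic := h2.1.pow _
  have m4 : (Lin n ^ j).Monic := (Lin_monic n).pow _
  have e : PA n b m j = SB n b * TB n b ^ m * Lin n ^ j := rfl
  rw [e]
  refine ⟨(h1.1.mul m3).mul m4, ?_⟩
  rw [(h1.1.mul m3).natDegree_mul m4, h1.1.natDegree_mul m3, h1.2, h2.1.natDegree_pow, h2.2,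
    (Lin_monic n).natDegree_pow, Lin_deg, s1]
  rcases hp with ⟨hb', _, _⟩ | ⟨rfl, rfl, _⟩
  · have s2 : ∑ i ∈ Finset.range nN, (sG (b + 1) i - sG b i) = ho (b + 1) - ho b := by
      have h := Finset.sum_tsub_distrib (Finset.range nN) (f := fun i => sG (b + 1) i)
        (g := fun i => sG b i) fun i hi => sG_mono hb' i hi
      rw [h, sum_sG (by omega), sum_sG hb]
    rw [s2]
    unfold dg
    ring
  · unfold dg
    ring

theorem G4d : StG4d := by
  intro n i hn hi
  have hN : 1 ≤ n / 60 := by omega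
  rcases Nat.lt_or_ge i (240 * (n / 60)) with h | h
  · obtain ⟨b, hb, h1, h2⟩ := exists_stage n i nB (by rw [ho_nB]; exact h)
    obtain ⟨x, rfl⟩ := Nat.exists_eq_add_of_le h1
    have h0 := ho_lt hb
    have e : 2 * ho (b + 1) * (n / 60) =
        2 * ho b * (n / 60) + 2 * (ho (b + 1) - ho b) * (n / 60) := by
      rw [← add_mul, ← mul_add, Nat.add_sub_cancel' h0.le]
    have hx : x < 2 * (ho (b + 1) - ho b) * (n / 60) := by omega
    rw [loc_mid hb hx]
    have hs : 0 < 2 * (ho (b + 1) - ho b) := by omega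
    refine ⟨Or.inl ⟨hb, ?_, Nat.mod_lt _ hs⟩, ?_⟩
    · exact Nat.div_lt_of_lt_mul hx
    · unfold dg
      have := Nat.div_add_mod x (2 * (ho (b + 1) - ho b))
      dsimp only
      omega
  · rw [loc_top h]
    refine ⟨Or.inr ⟨rfl, rfl, ?_⟩, ?_⟩
    · show i - 240 * (n / 60) < 4 * n - 240 * (n / 60)
      omega
    · unfold dg
      dsimp only
      rw [ho_nB]
      omega

end Pool.Agent.TH609.E3.W249
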